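import Mathlib

/-!
Countable structures with countably many binary relations are coded by countable simple graphs, in a
Borel way.
-/

open Set

namespace Pool.Agent.H655.GR

/-- The vertices. -/
inductive Vx : Type where
  | el (a : ℕ)
  | p (j a b : ℕ)
  | q (j a b : ℕ)
  | s (j a b : ℕ)
  | lf (j a b k : ℕ)
  deriving DecidableEq

open Vx

/-- The oriented edges. -/
inductive Ed (R : ℕ → ℕ → ℕ → Prop) : Vx → Vx → Prop where
  | ep (j a b : ℕ) : Ed R (el a) (p j a b)
  | pq (j a b : ℕ) : Ed R (p j a b) (q j a b)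
  | qe (j a b : ℕ) : Ed R (q j a b) (el b)
  | pl (j a b k : ℕ) (h : k < 2 * j + 3) : Ed R (p j a b) (lf j a b k)
  | qs (j a b : ℕ) (h : R j a b) : Ed R (q j a b) (s j a b)
  | ps (j a b : ℕ) (h : ¬ R j a b) : Ed R (p j a b) (s j a b)

/-- Adjacency. -/
def Adj (R : ℕ → ℕ → ℕ → Prop) (v w : Vx) : Prop := Ed R v w ∨ Ed R w v

variable {R R' : ℕ → ℕ → ℕ → Prop}

theorem Adj.symm {v w : Vx} (h : Adj R v w) : Adj R w v := Or.symm h

theorem Adj.irrefl (v : Vx) : ¬ Adj R v v := by
  rintro (h | h) <;> cases h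

/-- The neighbours. -/
def Nb (R : ℕ → ℕ → ℕ → Prop) (v : Vx) : Set Vx := {w | Adj R v w}

theorem Nb_el (a : ℕ) : (Nb R (el a)).encard = ⊤ := by
  rw [Set.encard_eq_top_iff]
  refine Set.infinite_of_injective_forall_mem (f := fun b : ℕ => p 0 a b) ?_ ?_
  · intro b b' h
    cases h
    rfl
  · intro b
    exact Or.inl (Ed.ep _ _ _)

open Classical in
theorem Nb_p (j a b : ℕ) :
    (Nb R (p j a b)).encard = ((if R j a b then 2 * j + 5 else 2 * j + 6 : ℕ) : ℕ∞) := by
  have hinj : Function.Injective (lf j a b) := by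
    intro k k' h
    cases h
    rfl
  by_cases h : R j a b
  · have h1 : Nb R (p j a b) =
        ((insert (el a) (insert (q j a b) ((Finset.range (2 * j + 3)).image (lf j a b))) :
          Finset Vx) : Set Vx) := by
      ext w
      simp only [Finset.coe_insert, Finset.coe_image, Finset.coe_range, Set.mem_insert_iff,
        Set.mem_image, Set.mem_Iio]
      constructor
      · rintro (h2 | h2)
        · cases h2 with
          | pq => exact Or.inr (Or.inl rfl)
          | pl _ _ _ k hk => exact Or.inr (Or.inr ⟨k, hk, rfl⟩)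
          | ps _ _ _ h3 => exact absurd h h3
        · cases h2 with
          | ep => exact Or.inl rfl
      · rintro (rfl | rfl | ⟨k, hk, rfl⟩)
        · exact Or.inr (Ed.ep _ _ _)
        · exact Or.inl (Ed.pq _ _ _)
        · exact Or.inl (Ed.pl _ _ _ _ hk)
    rw [h1, Set.encard_coe_eq_coe_finsetCard, if_pos h, Finset.card_insert_of_notMem (by simp),
      Finset.card_insert_of_notMem (by simp), Finset.card_image_of_injective _ hinj,
      Finset.card_range]
  · have h1 : Nb R (p j a b) =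
        ((insert (s j a b) (insert (el a) (insert (q j a b)
          ((Finset.range (2 * j + 3)).image (lf j a b)))) : Finset Vx) : Set Vx) := by
      ext w
      simp only [Finset.coe_insert, Finset.coe_image, Finset.coe_range, Set.mem_insert_iff,
        Set.mem_image, Set.mem_Iio]
      constructor
      · rintro (h2 | h2)
        · cases h2 with
          | pq => exact Or.inr (Or.inr (Or.inl rfl))
          | pl _ _ _ k hk => exact Or.inr (Or.inr (Or.inr ⟨k, hk, rfl⟩))
          | ps _ _ _ h3 => exact Or.inl rfl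
        · cases h2 with
          | ep => exact Or.inr (Or.inl rfl)
      · rintro (rfl | rfl | rfl | ⟨k, hk, rfl⟩)
        · exact Or.inl (Ed.ps _ _ _ h)
        · exact Or.inr (Ed.ep _ _ _)
        · exact Or.inl (Ed.pq _ _ _)
        · exact Or.inl (Ed.pl _ _ _ _ hk)
    rw [h1, Set.encard_coe_eq_coe_finsetCard, if_neg h, Finset.card_insert_of_notMem (by simp),
      Finset.card_insert_of_notMem (by simp),
      Finset.card_insert_of_notMem (by simp), Finset.card_image_of_injective _ hinj,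
      Finset.card_range]

theorem Nb_q (j a b : ℕ) : (Nb R (q j a b)).encard = 2 ∨ (Nb R (q j a b)).encard = 3 := by
  by_cases h : R j a b
  · right
    have h1 : Nb R (q j a b) = (({s j a b, p j a b, el b} : Finset Vx) : Set Vx) := by
      ext w
      simp only [Finset.coe_insert, Finset.coe_singleton, Set.mem_insert_iff,
        Set.mem_singleton_iff]
      constructor
      · rintro (h2 | h2)
        · cases h2 with
          | qe => exact Or.inr (Or.inr rfl)
          | qs _ _ _ h3 => exact Or.inl rfl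
        · cases h2 with
          | pq => exact Or.inr (Or.inl rfl)
      · rintro (rfl | rfl | rfl)
        · exact Or.inl (Ed.qs _ _ _ h)
        · exact Or.inr (Ed.pq _ _ _)
        · exact Or.inl (Ed.qe _ _ _)
    rw [h1, Set.encard_coe_eq_coe_finsetCard]
    rfl
  · left
    have h1 : Nb R (q j a b) = (({p j a b, el b} : Finset Vx) : Set Vx) := by
      ext w
      simp only [Finset.coe_insert, Finset.coe_singleton, Set.mem_insert_iff,
        Set.mem_singleton_iff]
      constructor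
      · rintro (h2 | h2)
        · cases h2 with
          | qe => exact Or.inr rfl
          | qs _ _ _ h3 => exact absurd h3 h
        · cases h2 with
          | pq => exact Or.inl rfl
      · rintro (rfl | rfl)
        · exact Or.inr (Ed.pq _ _ _)
        · exact Or.inl (Ed.qe _ _ _)
    rw [h1, Set.encard_coe_eq_coe_finsetCard]
    rfl

theorem Nb_s (j a b : ℕ) : (Nb R (s j a b)).encard ≤ 1 := by
  rw [Set.encard_le_one_iff]
  rintro v w (hv | hv) (hw | hw)
  · cases hv
  · cases hv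
  · cases hw
  · cases hv with
    | qs _ _ _ h => cases hw with
      | qs _ _ _ h => rfl
      | ps _ _ _ h' => exact absurd h h'
    | ps _ _ _ h => cases hw with
      | qs _ _ _ h' => exact absurd h' h
      | ps _ _ _ h' => rfl

theorem Nb_lf (j a b k : ℕ) : (Nb R (lf j a b k)).encard ≤ 1 := by
  rw [Set.encard_le_one_iff]
  rintro v w (hv | hv) (hw | hw)
  · cases hv
  · cases hv
  · cases hw
  · cases hv
    cases hw
    rfl

/-- Isomorphisms preserve the numbers of neighbours. -/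
theorem Nb_iso {Ψ : Vx ≃ Vx} (h : ∀ v w, Adj R v w ↔ Adj R' (Ψ v) (Ψ w)) (v : Vx) :
    (Nb R' (Ψ v)).encard = (Nb R v).encard := by
  have : Nb R' (Ψ v) = Ψ '' Nb R v := by
    ext w
    constructor
    · intro hw
      refine ⟨Ψ.symm w, ?_, Ψ.apply_symm_apply w⟩
      show Adj R v _
      rw [h, Ψ.apply_symm_apply]
      exact hw
    · rintro ⟨w, hw, rfl⟩
      exact (h _ _).1 hw
  rw [this, Ψ.injective.encard_image]

theorem not_top_p (j a b : ℕ) : (Nb R (p j a b)).encard ≠ ⊤ := by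
  classical
  rw [Nb_p]
  exact ENat.coe_ne_top _

theorem five_le_p (j a b : ℕ) : 5 ≤ (Nb R (p j a b)).encard := by
  classical
  rw [Nb_p]
  have : (5 : ℕ∞) = ((5 : ℕ) : ℕ∞) := rfl
  rw [this, Nat.cast_le]
  split_ifs <;> omega

theorem iso_el {Ψ : Vx ≃ Vx} (h : ∀ v w, Adj R v w ↔ Adj R' (Ψ v) (Ψ w)) (a : ℕ) :
    ∃ a', Ψ (el a) = el a' := by
  have h1 := Nb_iso h (el a)
  rw [Nb_el] at h1
  cases hv : Ψ (el a) with
  | el a' => exact ⟨a', rfl⟩
  | p j a b =>
    rw [hv] at h1
    exact absurd h1 (not_top_p _ _ _)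
  | q j a b =>
    rw [hv] at h1
    rcases Nb_q (R := R') j a b with h2 | h2 <;> rw [h2] at h1 <;> exact absurd h1 (by decide)
  | s j a b =>
    rw [hv] at h1
    have := Nb_s (R := R') j a b
    rw [h1] at this
    exact absurd this (by decide)
  | lf j a b k =>
    rw [hv] at h1
    have := Nb_lf (R := R') j a b k
    rw [h1] at this
    exact absurd this (by decide)

theorem iso_p {Ψ : Vx ≃ Vx} (h : ∀ v w, Adj R v w ↔ Adj R' (Ψ v) (Ψ w)) (j a b : ℕ) :
    ∃ a' b', Ψ (p j a b) = p j a' b' ∧ (R j a b ↔ R' j a' b') := by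
  classical
  have h1 := Nb_iso h (p j a b)
  cases hv : Ψ (p j a b) with
  | el a' =>
    rw [hv, Nb_el] at h1
    exact absurd h1.symm (not_top_p _ _ _)
  | p j' a' b' =>
    rw [hv, Nb_p, Nb_p, Nat.cast_inj] at h1
    by_cases h2 : R j a b <;> by_cases h3 : R' j' a' b'
    · rw [if_pos h2, if_pos h3] at h1
      obtain rfl : j' = j := by omega
      exact ⟨a', b', rfl, iff_of_true h2 h3⟩
    · rw [if_pos h2, if_neg h3] at h1
      omega
    · rw [if_neg h2, if_pos h3] at h1
      omega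
    · rw [if_neg h2, if_neg h3] at h1
      obtain rfl : j' = j := by omega
      exact ⟨a', b', rfl, iff_of_false h2 h3⟩
  | q j' a' b' =>
    rw [hv] at h1
    have h3 := five_le_p (R := R) j a b
    rcases Nb_q (R := R') j' a' b' with h2 | h2 <;> rw [← h1, h2] at h3 <;>
      exact absurd h3 (by decide)
  | s j' a' b' =>
    rw [hv] at h1
    have h3 := five_le_p (R := R) j a b
    have := Nb_s (R := R') j' a' b'
    rw [h1] at this
    exact absurd (h3.trans this) (by decide)
  | lf j' a' b' k =>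
    rw [hv] at h1
    have h3 := five_le_p (R := R) j a b
    have := Nb_lf (R := R') j' a' b' k
    rw [h1] at this
    exact absurd (h3.trans this) (by decide)

theorem iso_q {Ψ : Vx ≃ Vx} (h : ∀ v w, Adj R v w ↔ Adj R' (Ψ v) (Ψ w)) (j a b : ℕ) :
    ∃ j' a' b', Ψ (q j a b) = q j' a' b' := by
  have h1 := Nb_iso h (q j a b)
  have h0 := Nb_q (R := R) j a b
  cases hv : Ψ (q j a b) with
  | el a' =>
    rw [hv, Nb_el] at h1
    rcases h0 with h0 | h0 <;> rw [h0] at h1 <;> exact absurd h1 (by decide)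
  | p j' a' b' =>
    rw [hv] at h1
    have h3 := five_le_p (R := R') j' a' b'
    rcases h0 with h0 | h0 <;> rw [h1, h0] at h3 <;> exact absurd h3 (by decide)
  | q j' a' b' => exact ⟨_, _, _, rfl⟩
  | s j' a' b' =>
    rw [hv] at h1
    have := Nb_s (R := R') j' a' b'
    rcases h0 with h0 | h0 <;> rw [h1, h0] at this <;> exact absurd this (by decide)
  | lf j' a' b' k =>
    rw [hv] at h1
    have := Nb_lf (R := R') j' a' b' k
    rcases h0 with h0 | h0 <;> rw [h1, h0] at this <;> exact absurd this (by decide)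

/-- Isomorphisms of the graphs give isomorphisms of the structures. -/
theorem of_iso {Ψ : Vx ≃ Vx} (h : ∀ v w, Adj R v w ↔ Adj R' (Ψ v) (Ψ w)) :
    ∃ σ : ℕ ≃ ℕ, ∀ j a b, R j a b ↔ R' j (σ a) (σ b) := by
  have h' : ∀ v w, Adj R' v w ↔ Adj R (Ψ.symm v) (Ψ.symm w) := by
    intro v w
    rw [h, Ψ.apply_symm_apply, Ψ.apply_symm_apply]
  choose σ hσ using iso_el h
  choose τ hτ using iso_el h'
  refine ⟨⟨σ, τ, ?_, ?_⟩, ?_⟩
  · intro a
    have h1 := hτ (σ a)
    rw [← hσ, Ψ.symm_apply_apply] at h1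
    exact (el.inj h1).symm
  · intro a
    have h1 := hσ (τ a)
    rw [← hτ, Ψ.apply_symm_apply] at h1
    exact (el.inj h1).symm
  · intro j a b
    obtain ⟨a', b', h1, h2⟩ := iso_p h j a b
    obtain ⟨j₁, a₁, b₁, h3⟩ := iso_q h j a b
    have h4 := (h _ _).1 (Or.inl (Ed.ep j a b) : Adj R (el a) (p j a b))
    have h5 := (h _ _).1 (Or.inl (Ed.pq j a b) : Adj R (p j a b) (q j a b))
    have h6 := (h _ _).1 (Or.inl (Ed.qe j a b) : Adj R (q j a b) (el b))
    rw [hσ, h1] at h4
    rw [h1, h3] at h5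
    rw [h3, hσ] at h6
    have h7 : σ a = a' := by
      rcases h4 with h4 | h4 <;> cases h4
      rfl
    have h8 : b₁ = b' := by
      rcases h5 with h5 | h5 <;> cases h5
      rfl
    have h9 : σ b = b₁ := by
      rcases h6 with h6 | h6 <;> cases h6
      rfl
    show R j a b ↔ R' j (σ a) (σ b)
    rw [h7, h9, h8]
    exact h2

/-- The renaming of the vertices. -/
def ren (σ : ℕ → ℕ) : Vx → Vx
  | el a => el (σ a)
  | p j a b => p j (σ a) (σ b)
  | q j a b => q j (σ a) (σ b)
  | s j a b => s j (σ a) (σ b)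
  | lf j a b k => lf j (σ a) (σ b) k

theorem ren_ren {σ τ : ℕ → ℕ} (h : ∀ a, τ (σ a) = a) (v : Vx) : ren τ (ren σ v) = v := by
  cases v <;> simp [ren, h]

theorem ren_ed {σ : ℕ → ℕ} (h : ∀ j a b, R j a b ↔ R' j (σ a) (σ b)) {v w : Vx} (hv : Ed R v w) :
    Ed R' (ren σ v) (ren σ w) := by
  cases hv with
  | ep j a b => exact Ed.ep _ _ _
  | pq j a b => exact Ed.pq _ _ _
  | qe j a b => exact Ed.qe _ _ _
  | pl j a b k hk => exact Ed.pl _ _ _ _ hk
  | qs j a b h1 => exact Ed.qs _ _ _ ((h _ _ _).1 h1)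
  | ps j a b h1 => exact Ed.ps _ _ _ (fun h2 => h1 ((h _ _ _).2 h2))

/-- Isomorphisms of the structures give isomorphisms of the graphs. -/
theorem to_iso (σ : ℕ ≃ ℕ) (h : ∀ j a b, R j a b ↔ R' j (σ a) (σ b)) :
    ∃ Ψ : Vx ≃ Vx, ∀ v w, Adj R v w ↔ Adj R' (Ψ v) (Ψ w) := by
  have h' : ∀ j a b, R' j a b ↔ R j (σ.symm a) (σ.symm b) := by
    intro j a b
    rw [h, σ.apply_symm_apply, σ.apply_symm_apply]
  refine ⟨⟨ren σ, ren σ.symm, ren_ren σ.symm_apply_apply, ren_ren σ.apply_symm_apply⟩, ?_⟩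
  intro v w
  constructor
  · rintro (h1 | h1)
    · exact Or.inl (ren_ed h h1)
    · exact Or.inr (ren_ed h h1)
  · have h3 : ∀ v, ren σ.symm (ren σ v) = v := ren_ren σ.symm_apply_apply
    rintro (h1 | h1)
    · have h2 := ren_ed h' h1
      left
      rw [← h3 v, ← h3 w]
      exact h2
    · have h2 := ren_ed h' h1
      right
      rw [← h3 v, ← h3 w]
      exact h2

/-- The numbers of a vertex. -/
def num : Vx → ℕ × ℕ × ℕ × ℕ × ℕ
  | el a => (0, a, 0, 0, 0)
  | p j a b => (1, j, a, b, 0)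
  | q j a b => (2, j, a, b, 0)
  | s j a b => (3, j, a, b, 0)
  | lf j a b k => (4, j, a, b, k)

theorem num_inj : Function.Injective num := by
  intro v w h
  cases v <;> cases w <;> simp [num] at h <;> simp [h]

instance : Countable Vx := num_inj.countable

instance : Infinite Vx := Infinite.of_injective el (fun a b h => by cases h; rfl)

/-- The vertices are numbered. -/
noncomputable def nv : Vx ≃ ℕ := by
  have : Nonempty (Vx ≃ ℕ) := by
    obtain ⟨h⟩ := nonempty_denumerable Vx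
    exact ⟨Denumerable.eqv Vx⟩
  exact this.some

/-- The graph on the natural numbers. -/
def Gr (R : ℕ → ℕ → ℕ → Prop) (i j : ℕ) : Prop := Adj R (nv.symm i) (nv.symm j)

theorem Gr_symm {i j : ℕ} (h : Gr R i j) : Gr R j i := Adj.symm h

theorem Gr_irrefl (i : ℕ) : ¬ Gr R i i := Adj.irrefl _

/-- The coding preserves and reflects isomorphism. -/
theorem Gr_iff : (∃ σ : ℕ ≃ ℕ, ∀ j a b, R j a b ↔ R' j (σ a) (σ b)) ↔
    ∃ σ : ℕ ≃ ℕ, ∀ a b, Gr R a b ↔ Gr R' (σ a) (σ b) := by
  constructor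
  · rintro ⟨σ, hσ⟩
    obtain ⟨Ψ, hΨ⟩ := to_iso σ hσ
    refine ⟨(nv.symm.trans Ψ).trans nv, fun a b => ?_⟩
    unfold Gr
    simp only [Equiv.trans_apply, Equiv.symm_apply_apply]
    exact hΨ _ _
  · rintro ⟨σ, hσ⟩
    refine of_iso (Ψ := (nv.trans σ).trans nv.symm) fun v w => ?_
    have := hσ (nv v) (nv w)
    unfold Gr at this
    simpa using this

theorem Ed_iff (v w : Vx) : Ed R v w ↔
    (∃ j a b, v = el a ∧ w = p j a b) ∨ (∃ j a b, v = p j a b ∧ w = q j a b) ∨
    (∃ j a b, v = q j a b ∧ w = el b) ∨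
    (∃ j a b k, (v = p j a b ∧ w = lf j a b k) ∧ k < 2 * j + 3) ∨
    (∃ j a b, (v = q j a b ∧ w = s j a b) ∧ R j a b) ∨
    (∃ j a b, (v = p j a b ∧ w = s j a b) ∧ ¬ R j a b) := by
  constructor
  · intro h
    cases h with
    | ep j a b => exact Or.inl ⟨j, a, b, rfl, rfl⟩
    | pq j a b => exact Or.inr (Or.inl ⟨j, a, b, rfl, rfl⟩)
    | qe j a b => exact Or.inr (Or.inr (Or.inl ⟨j, a, b, rfl, rfl⟩))
    | pl j a b k hk => exact Or.inr (Or.inr (Or.inr (Or.inl ⟨j, a, b, k, ⟨rfl, rfl⟩, hk⟩)))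
    | qs j a b h => exact Or.inr (Or.inr (Or.inr (Or.inr (Or.inl ⟨j, a, b, ⟨rfl, rfl⟩, h⟩))))
    | ps j a b h => exact Or.inr (Or.inr (Or.inr (Or.inr (Or.inr ⟨j, a, b, ⟨rfl, rfl⟩, h⟩))))
  · rintro (⟨j, a, b, rfl, rfl⟩ | ⟨j, a, b, rfl, rfl⟩ | ⟨j, a, b, rfl, rfl⟩ |
      ⟨j, a, b, k, ⟨rfl, rfl⟩, h⟩ | ⟨j, a, b, ⟨rfl, rfl⟩, h⟩ | ⟨j, a, b, ⟨rfl, rfl⟩, h⟩)
    · exact Ed.ep _ _ _
    · exact Ed.pq _ _ _
    · exact Ed.qe _ _ _
    · exact Ed.pl _ _ _ _ h
    · exact Ed.qs _ _ _ h
    · exact Ed.ps _ _ _ h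

theorem meas_Ed {Ω : Type} [MeasurableSpace Ω] {F : Ω → ℕ → ℕ → ℕ → Prop}
    (hF : ∀ j a b, Measurable (fun ω => F ω j a b)) (v w : Vx) :
    Measurable (fun ω => Ed (F ω) v w) := by
  have : (fun ω => Ed (F ω) v w) = fun ω => _ := funext fun ω => propext (Ed_iff v w)
  rw [this]
  have hc : ∀ P : Prop, Measurable (fun _ : Ω => P) := fun P => measurable_const
  refine (hc _).or ((hc _).or ((hc _).or ((hc _).or (Measurable.or ?_ ?_))))
  · exact Measurable.exists fun j => Measurable.exists fun a => Measurable.exists fun b =>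
      (hc _).and (hF j a b)
  · exact Measurable.exists fun j => Measurable.exists fun a => Measurable.exists fun b =>
      (hc _).and (hF j a b).not

theorem meas_Gr {Ω : Type} [MeasurableSpace Ω] {F : Ω → ℕ → ℕ → ℕ → Prop}
    (hF : ∀ j a b, Measurable (fun ω => F ω j a b)) (i j : ℕ) :
    Measurable (fun ω => Gr (F ω) i j) :=
  (meas_Ed hF _ _).or (meas_Ed hF _ _)

end Pool.Agent.H655.GR
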